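import Pool.Agent.R819.TRing

/-!
# A `T₁` space `X` for which the ring `T''(X)` is not almost regular

The space `X` is obtained from the real line by attaching at `0` an infinite space `W` with the
cofinite topology: its underlying set is `ℝ ⊔ ℕ`, where the point `0` of `ℝ` together with `ℕ` forms
`W`. A set `U` is open if `U ∩ ℝ` is open in `ℝ`, and `U ∩ W` is empty or has finite complement in
`W`. Each continuous real function on `X` is constant on `W`, and `ℕ` is open, so each dense cozero
set contains `W` and a neighbourhood of `0`. The function `f (t) = t` on `ℝ` and `f = 0` on `W` is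
continuous; it has zeros and therefore is no unit. If `f b = 0` with `b ∈ T''(X)`, then `b` vanishes
on `ℝ` except at `0`, and `b` is continuous on a neighbourhood of `W`, so `b` vanishes at `0` and
on `W`. So `f` is no zero divisor.
-/

set_option autoImplicit false

open Set Topology Filter

namespace Pool.Agent.Results.MP_3eafcc_gt.NotAlmostRegular

open Pool.Agent.R819.TRing

/-- a commutative ring is almost regular if each element is a unit or a zero divisor -/
def AlmostRegular (R : Type*) [CommRing R] : Prop :=
  ∀ a : R, IsUnit a ∨ ∃ b : R, b ≠ 0 ∧ a * b = 0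

/-- the underlying set of the space: the real line, and the points of `W` other than `0` -/
inductive X : Type
  | line : ℝ → X
  | cof : ℕ → X

open X

/-- `W`, with the cofinite topology, as a set of points of `X` -/
def j : CofiniteTopology (Option ℕ) → X := fun w =>
  match CofiniteTopology.of.symm w with
  | none => line 0
  | some n => cof n

instance : TopologicalSpace X :=
  TopologicalSpace.coinduced line inferInstance ⊔ TopologicalSpace.coinduced j inferInstance

theorem isOpen_X {U : Set X} : IsOpen U ↔ IsOpen (line ⁻¹' U) ∧ IsOpen (j ⁻¹' U) := Iff.rfl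

theorem isOpen_W {V : Set (CofiniteTopology (Option ℕ))} (h : Vᶜ.Finite) : IsOpen V :=
  CofiniteTopology.isOpen_iff'.2 (Or.inr h)

instance : T1Space X := by
  refine ⟨fun x => ⟨?_⟩⟩
  rw [isOpen_X]
  constructor
  · rw [preimage_compl]
    refine (Set.Subsingleton.isClosed ?_).isOpen_compl
    intro a ha b hb
    have h1 : line a = line b := ha.trans hb.symm
    exact X.line.inj h1
  · rw [preimage_compl]
    refine isOpen_W ?_
    rw [compl_compl]
    refine Set.Subsingleton.finite ?_
    intro a ha b hb
    have h1 : j a = j b := ha.trans hb.symm
    apply CofiniteTopology.of.symm.injective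
    unfold j at h1
    revert h1
    cases CofiniteTopology.of.symm a <;> cases CofiniteTopology.of.symm b <;> simp

/-- continuous functions on `W` are constant -/
theorem const_W {g : CofiniteTopology (Option ℕ) → ℝ} (hg : Continuous g)
    (a b : CofiniteTopology (Option ℕ)) : g a = g b := by
  by_contra hab
  obtain ⟨U, V, hU, hV, ha, hb, hUV⟩ := t2_separation hab
  have h1 := (CofiniteTopology.isOpen_iff'.1 (hU.preimage hg)).resolve_left
    (nonempty_iff_ne_empty.1 ⟨a, ha⟩)
  have h2 := (CofiniteTopology.isOpen_iff'.1 (hV.preimage hg)).resolve_left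
    (nonempty_iff_ne_empty.1 ⟨b, hb⟩)
  have h3 : (univ : Set (CofiniteTopology (Option ℕ))).Finite := by
    refine (h1.union h2).subset fun x _ => ?_
    by_contra h4
    simp only [mem_union, mem_compl_iff, not_or, not_not] at h4
    exact Set.disjoint_left.1 hUV h4.1 h4.2
  have h4 : Infinite (CofiniteTopology (Option ℕ)) := CofiniteTopology.of.infinite_iff.1 inferInstance
  exact Set.infinite_univ h3

theorem continuous_line : Continuous line := by
  refine continuous_def.2 fun U hU => ?_
  exact (isOpen_X.1 hU).1

theorem continuous_j : Continuous j := by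
  refine continuous_def.2 fun U hU => ?_
  exact (isOpen_X.1 hU).2

/-- the point of `W` with the number `n` -/
def w (n : ℕ) : CofiniteTopology (Option ℕ) := CofiniteTopology.of (some n)

/-- the point `0` in `W` -/
def w0 : CofiniteTopology (Option ℕ) := CofiniteTopology.of none

theorem j_w (n : ℕ) : j (w n) = cof n := rfl

theorem j_w0 : j w0 = line 0 := rfl

theorem isOpen_range_cof : IsOpen (range cof) := by
  rw [isOpen_X]
  constructor
  · have h1 : line ⁻¹' range cof = ∅ := by
      ext t
      simp
    rw [h1]
    exact isOpen_empty
  · refine isOpen_W (Set.Subsingleton.finite ?_)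
    have h2 : ∀ a ∈ (j ⁻¹' range cof)ᶜ, a = w0 := by
      intro a ha
      apply CofiniteTopology.of.symm.injective
      cases h : CofiniteTopology.of.symm a with
      | none => rfl
      | some n =>
        refine absurd ⟨n, ?_⟩ ha
        unfold j
        rw [h]
    intro a ha b hb
    rw [h2 a ha, h2 b hb]

/-- the element of `T''(X)` which is neither a unit nor a zero divisor -/
def f : X → ℝ
  | line t => t
  | cof _ => 0

theorem continuous_X {g : X → ℝ} (h1 : Continuous (g ∘ line)) (h2 : Continuous (g ∘ j)) :
    Continuous g := by
  refine continuous_def.2 fun U hU => ?_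
  rw [isOpen_X]
  exact ⟨hU.preimage h1, hU.preimage h2⟩

theorem continuous_f : Continuous f := by
  refine continuous_X continuous_id ?_
  have h1 : f ∘ j = fun _ => 0 := by
    funext a
    change f (j a) = 0
    unfold j
    cases CofiniteTopology.of.symm a <;> rfl
  rw [h1]
  exact continuous_const

/-- **There is a `T₁` space `X` for which the ring `T''(X)` is not almost regular.** -/
theorem result : ∃ (X : Type) (_ : TopologicalSpace X), T1Space X ∧ ¬ AlmostRegular (Tpp X) := by
  refine ⟨X, inferInstance, inferInstance, fun hreg => ?_⟩
  have hfm : f ∈ Tpp X := ⟨1, by simp, continuous_f.continuousOn⟩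
  rcases hreg ⟨f, hfm⟩ with hu | ⟨b, hb0, hb⟩
  · obtain ⟨b, hb⟩ := hu.exists_right_inv
    have h1 := congrFun (congrArg Subtype.val hb) (line 0)
    have h2 : f (line 0) * (b : X → ℝ) (line 0) = 1 := h1
    simp [f] at h2
  · refine hb0 ?_
    obtain ⟨b, g, hgd, hbc⟩ := b
    have hfb : ∀ x, f x * b x = 0 := fun x => congrFun (congrArg Subtype.val hb) x
    have hgW : ∀ a, g (j a) = g (line 0) := fun a =>
      const_W (g.continuous.comp continuous_j) a w0
    have hg0 : g (line 0) ≠ 0 := by
      obtain ⟨x, ⟨n, rfl⟩, hx1⟩ := hgd.inter_open_nonempty (range cof) isOpen_range_cof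
        ⟨_, 0, rfl⟩
      intro h
      refine hx1 ?_
      rw [← j_w n, hgW, h]
    have hb1 : ∀ t : ℝ, t ≠ 0 → b (line t) = 0 := by
      intro t ht
      exact (mul_eq_zero.1 (hfb (line t))).resolve_left ht
    have hb2 : b (line 0) = 0 := by
      have h1 : ContinuousAt (fun t : ℝ => b (line t)) 0 := by
        have h2 : ContinuousAt b (line 0) := hbc.continuousAt
          ((isOpen_ne_fun g.continuous continuous_const).mem_nhds hg0)
        exact h2.comp continuous_line.continuousAt
      have h3 : Tendsto (fun t : ℝ => b (line t)) (𝓝[≠] 0) (𝓝 (b (line 0))) :=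
        h1.tendsto.mono_left nhdsWithin_le_nhds
      have h4 : Tendsto (fun t : ℝ => b (line t)) (𝓝[≠] 0) (𝓝 0) := by
        refine tendsto_const_nhds.congr' ?_
        filter_upwards [self_mem_nhdsWithin] with t ht
        exact (hb1 t ht).symm
      exact tendsto_nhds_unique h3 h4
    have hb3 : ∀ n, b (cof n) = 0 := by
      intro n
      have h1 : Continuous (b ∘ j) := by
        rw [continuous_iff_continuousAt]
        intro a
        have h2 : ContinuousAt b (j a) := hbc.continuousAt
          ((isOpen_ne_fun g.continuous continuous_const).mem_nhds (by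
            change g (j a) ≠ 0
            rw [hgW]
            exact hg0))
        exact h2.comp continuous_j.continuousAt
      have h3 := const_W h1 (w n) w0
      change b (cof n) = b (line 0) at h3
      rw [h3, hb2]
    apply Subtype.ext
    funext x
    change b x = 0
    cases x with
    | line t =>
      by_cases ht : t = 0
      · rw [ht, hb2]
      · exact hb1 t ht
    | cof n => exact hb3 n

end Pool.Agent.Results.MP_3eafcc_gt.NotAlmostRegular
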